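import Pool.Agent.Lib.MP_c1e253_pr.Main

/-!
Random Cayley graphs of the unitriangular groups are expanders with high probability:
the sequence form, for independent uniform generators on arbitrary probability spaces.
-/

set_option autoImplicit false

open Filter MeasureTheory ProbabilityTheory

namespace Pool.Agent.Results.MP_c1e253_pr.Expander

/-- The group of upper unitriangular `d × d` matrices over `ZMod p`. -/
def Heis (p d : ℕ) : Subgroup (GL (Fin d) (ZMod p)) where
  carrier := {g | (∀ i j, j < i → g.val i j = 0) ∧ ∀ i, g.val i i = 1}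
  one_mem' := ⟨fun _ _ h => Matrix.one_apply_ne h.ne', fun i => Matrix.one_apply_eq i⟩
  mul_mem' := fun {a b} ha hb => by
    have := (Pool.Agent.Lib.MP_c1e253_pr.UTm d p).mul_mem (x := a.val) (y := b.val)
      (fun i j => ⟨ha.1 i j, ha.2 i⟩) (fun i j => ⟨hb.1 i j, hb.2 i⟩)
    exact ⟨fun i j => (this i j).1, fun i => (this i i).2⟩
  inv_mem' := fun {g} hg => by
    have h1 : ∀ i j, j < i → g⁻¹.val i j = 0 := by
      let := g.invertible
      have := Matrix.blockTriangular_inv_of_blockTriangular (M := g.val) (b := id)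
        (fun i j h => hg.1 i j h)
      intro i j h
      rw [Matrix.coe_units_inv]
      exact this h
    refine ⟨h1, fun i => ?_⟩
    have h2 := congrFun (congrFun g.inv_mul i) i
    rw [Matrix.mul_apply, Finset.sum_eq_single i, hg.2 i, mul_one, Matrix.one_apply_eq] at h2
    · exact h2
    · intro c _ hc
      rcases lt_or_gt_of_ne hc with hc | hc
      · rw [h1 i c hc, zero_mul]
      · rw [hg.1 c i hc, mul_zero]
    · simp

/-- The expansion `h(Z)`: the least value of `|{(g,i) : g ∈ S, g Z_i ∉ S}| / (k |S|)` over the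
nonempty subsets `S` of `G` with `|S| ≤ |G| / 2`. -/
noncomputable def expansion {G : Type} [Group G] {k : ℕ} (Z : Fin k → G) : ℝ :=
  sInf {r | ∃ S : Set G, S.Nonempty ∧ (S.ncard : ℝ) ≤ Nat.card G / 2 ∧
    r = ({x : G × Fin k | x.1 ∈ S ∧ x.1 * Z x.2 ∉ S}.ncard : ℝ) / (k * S.ncard)}

theorem aux_mem {p d : ℕ} (g : GL (Fin d) (ZMod p)) :
    g ∈ Heis p d ↔ (∀ i j, j < i → g.val i j = 0) ∧ ∀ i, g.val i i = 1 := Iff.rfl

theorem aux_lift {p d : ℕ} {M : Matrix (Fin d) (Fin d) (ZMod p)}
    (h : ∀ i j, (j < i → M i j = 0) ∧ M i i = 1) : ∃ g : Heis p d, g.val.val = M := by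
  have hdet : M.det = 1 := by
    rw [Matrix.det_of_isUpperTriangular (fun i j hij => (h i j).1 hij)]
    exact Finset.prod_eq_one fun i _ => (h i i).2
  have hu : IsUnit M := by
    rw [Matrix.isUnit_iff_isUnit_det, hdet]; exact isUnit_one
  obtain ⟨u, rfl⟩ := hu
  exact ⟨⟨u, (aux_mem u).2 ⟨fun i j => (h i j).1, fun i => (h i i).2⟩⟩, rfl⟩

theorem aux_inj {p d : ℕ} : Function.Injective fun g : Heis p d => g.val.val :=
  fun _ _ h => Subtype.ext (Units.ext h)

theorem aux_count {p d k : ℕ} [NeZero p] [Fintype (Heis p d)] (hp : p.Prime) (hd : 3 ≤ d)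
    (hk : 1152 * ((d : ℝ) - 1) * Real.log p ≤ k) (hu : 3 ≤ d * Real.log p) {δ : ℝ}
    (hδ : 6 * Real.exp (-(d * Real.log p)) ≤ δ) (h2 : 2 ≤ Nat.card (Heis p d))
    (T : Finset (Fin k → Heis p d)) (hT : ∀ Z, 1 / 600 ≤ expansion Z → Z ∈ T) :
    (1 - δ) * (Nat.card (Heis p d) : ℝ) ^ k ≤ T.card := by
  classical
  have hk0 : (0 : ℝ) < k := by
    have hd' : (3 : ℝ) ≤ d := by exact_mod_cast hd
    have : 0 < Real.log p := Real.log_pos (by exact_mod_cast hp.one_lt)
    have : 0 < 1152 * ((d : ℝ) - 1) * Real.log p := mul_pos (by linarith) this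
    linarith
  let H : Finset (Matrix (Fin d) (Fin d) (ZMod p)) :=
    Finset.univ.image fun g : Heis p d => g.val.val
  have hH : ∀ M, M ∈ H ↔ ∀ i j, (j < i → M i j = 0) ∧ M i i = 1 := by
    intro M
    simp only [H, Finset.mem_image, Finset.mem_univ, true_and]
    constructor
    · rintro ⟨g, rfl⟩ i j
      exact ⟨((aux_mem _).1 g.2).1 i j, ((aux_mem _).1 g.2).2 i⟩
    · exact aux_lift
  have cH : H.card = Nat.card (Heis p d) := by
    rw [Finset.card_image_of_injective _ aux_inj, Finset.card_univ, Nat.card_eq_fintype_card]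
  have := Pool.Agent.Lib.MP_c1e253_pr.main_count hp hd hk hu hδ H hH
    (T.image fun Z i => (Z i).val.val) (by
      intro Z hZ h
      choose W hW using fun i => aux_lift ((hH _).1 (hZ i))
      refine Finset.mem_image.2 ⟨W, hT W (le_csInf ?_ ?_), funext hW⟩
      · refine ⟨_, {1}, Set.singleton_nonempty _, ?_, rfl⟩
        have : (2 : ℝ) ≤ Nat.card (Heis p d) := by exact_mod_cast h2
        simp only [Set.ncard_singleton, Nat.cast_one]
        linarith
      · rintro r ⟨S, S1, S2, rfl⟩
        have cS : (S.toFinset.image fun g : Heis p d => g.val.val).card = S.ncard := by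
          rw [Finset.card_image_of_injective _ aux_inj, Set.ncard_eq_toFinset_card']
        have S0 : (0 : ℝ) < S.ncard := by exact_mod_cast (Set.ncard_pos S.toFinite).2 S1
        have h3 := h (S.toFinset.image fun g : Heis p d => g.val.val)
          (Finset.image_subset_image (Finset.subset_univ _)) (by
            rw [cS, cH]
            have : (2 : ℝ) * S.ncard ≤ Nat.card (Heis p d) := by linarith
            exact_mod_cast this)
        rw [cS] at h3
        rw [le_div_iff₀ (mul_pos hk0 S0), ← mul_assoc]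
        refine h3.trans ?_
        rw [Nat.cast_le, Set.ncard_eq_toFinset_card']
        refine le_trans (Finset.card_le_card ?_) (Finset.card_image_le
          (f := fun x : Heis p d × Fin k => (x.1.val.val, x.2)))
        intro x hx
        simp only [Finset.mem_filter, Finset.mem_product, Finset.mem_image, Set.mem_toFinset,
          Finset.mem_univ, and_true, Set.mem_ofPred_eq] at hx ⊢
        obtain ⟨⟨g, g1, g2⟩, hx⟩ := hx
        refine ⟨(g, x.2), ⟨g1, fun c => hx ⟨_, c, ?_⟩⟩, Prod.ext g2 rfl⟩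
        rw [← g2, ← hW]
        rfl)
  rw [cH] at this
  exact this.trans (Nat.cast_le.2 Finset.card_image_le)

theorem aux_prob {G Ω : Type} [MeasurableSpace G]
    [MeasurableSingletonClass G] [MeasurableSpace Ω] (P : Measure Ω) [IsProbabilityMeasure P]
    {k : ℕ} (Z : Fin k → Ω → G) (hZ : ∀ i, Measurable (Z i)) (hi : iIndepFun Z P)
    (hu : ∀ i g, P.real {ω | Z i ω = g} = 1 / Nat.card G) (T : Finset (Fin k → G)) :
    P.real {ω | (fun i => Z i ω) ∈ T} = T.card / (Nat.card G : ℝ) ^ k := by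
  have e : ∀ z : Fin k → G, (fun ω i => Z i ω) ⁻¹' {z} = ⋂ i, Z i ⁻¹' {z i} := by
    intro z
    ext ω
    simp [funext_iff]
  have := sum_measureReal_preimage_singleton (μ := P) T (f := fun ω i => Z i ω) fun z _ => by
    rw [e]
    exact MeasurableSet.iInter fun i => hZ i (measurableSet_singleton _)
  change P.real ((fun ω i => Z i ω) ⁻¹' (T : Set (Fin k → G))) = _
  rw [← this, Finset.sum_congr rfl (g := fun _ => 1 / (Nat.card G : ℝ) ^ k), Finset.sum_const,
    nsmul_eq_mul, mul_one_div]
  intro z _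
  have hu' : ∀ i, (P (Z i ⁻¹' {z i})).toReal = 1 / (Nat.card G : ℝ) := fun i => hu i (z i)
  rw [e, measureReal_def, hi.meas_iInter fun i => ⟨{z i}, measurableSet_singleton _, rfl⟩,
    ENNReal.toReal_prod]
  simp [hu']

theorem result (p d k : ℕ → ℕ) (hp : ∀ m, (p m).Prime) (hd : ∀ m, 3 ≤ d m)
    (hk : ∀ m, 1152 * ((d m : ℝ) - 1) * Real.log (p m) ≤ k m)
    (hn : Tendsto (fun m => Nat.card (Heis (p m) (d m))) atTop atTop)
    [∀ m, MeasurableSpace (Heis (p m) (d m))]
    [∀ m, MeasurableSingletonClass (Heis (p m) (d m))]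
    (Ω : ℕ → Type) [∀ m, MeasurableSpace (Ω m)] (P : ∀ m, Measure (Ω m))
    [∀ m, IsProbabilityMeasure (P m)] (Z : ∀ m, Fin (k m) → Ω m → Heis (p m) (d m))
    (hZ : ∀ m i, Measurable (Z m i)) (hi : ∀ m, iIndepFun (Z m) (P m))
    (hu : ∀ m i g, (P m).real {ω | Z m i ω = g} = 1 / Nat.card (Heis (p m) (d m))) :
    Tendsto (fun m => (P m).real {ω | 1 / 600 ≤ expansion fun i => Z m i ω}) atTop (nhds 1) := by
  classical
  rw [Metric.tendsto_nhds]
  intro ε hε
  set δ := ε / 2 with hδ
  have δ0 : 0 < δ := by positivity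
  obtain ⟨N, hN⟩ := exists_nat_gt (Real.exp (2 * (max 3 (Real.log (6 / δ))) ^ 2))
  filter_upwards [hn.eventually_ge_atTop N, hn.eventually_ge_atTop 2] with m h1 h2
  have : NeZero (p m) := ⟨(hp m).ne_zero⟩
  have : Fintype (Heis (p m) (d m)) := Fintype.ofFinite _
  have hu0 := Pool.Agent.Lib.MP_c1e253_pr.large_of_card (hp m) hN
    (le_trans (by norm_num) (le_max_left _ _))
    (Finset.univ.image fun g : Heis (p m) (d m) => g.val.val) (by
      rwa [Finset.card_image_of_injective _ aux_inj, Finset.card_univ, ← Nat.card_eq_fintype_card])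
  have hu3 : 3 ≤ d m * Real.log (p m) := (le_max_left _ _).trans hu0
  have huδ : 6 * Real.exp (-(d m * Real.log (p m))) ≤ δ := by
    have h1 : Real.log (6 / δ) ≤ d m * Real.log (p m) := (le_max_right _ _).trans hu0
    have h2 : 6 / δ ≤ Real.exp (d m * Real.log (p m)) := by
      rw [← Real.exp_log (show 0 < 6 / δ by positivity)]
      exact Real.exp_le_exp.mpr h1
    rw [Real.exp_neg, ← div_eq_mul_inv, div_le_iff₀ (Real.exp_pos _)]
    rw [div_le_iff₀ δ0] at h2
    linarith
  have c1 := aux_count (hp m) (hd m) (hk m) hu3 huδ h2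
    (Finset.univ.filter fun W => 1 / 600 ≤ expansion W) fun W hW => by simpa using hW
  have c2 := aux_prob (P m) (Z m) (hZ m) (hi m) (hu m)
    (Finset.univ.filter fun W => 1 / 600 ≤ expansion W)
  simp only [Finset.mem_filter, Finset.mem_univ, true_and] at c2
  have c3 : (0 : ℝ) < (Nat.card (Heis (p m) (d m)) : ℝ) ^ k m := by
    have : (0 : ℝ) < Nat.card (Heis (p m) (d m)) := by exact_mod_cast (by omega)
    positivity
  rw [← le_div_iff₀ c3, ← c2] at c1
  have c4 : (P m).real {ω | 1 / 600 ≤ expansion fun i => Z m i ω} ≤ 1 := measureReal_le_one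
  rw [Real.dist_eq, abs_lt]
  constructor <;> linarith

end Pool.Agent.Results.MP_c1e253_pr.Expander
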