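import Pool.Agent.Lib.MP_c1e253_pr.GapMain

set_option autoImplicit false

namespace Pool.Agent.Results.MP_c1e253_pr.GapOfAbelianisation

open Pool.Agent.Lib.MP_c1e253_pr

/-- From about `d * sqrt (log p)` random generators on, the spectral gap of the unitriangular
group, cut off at `1 / 300`, is that of its abelianisation. -/
theorem result (p d k : ℕ) (hp : p.Prime) (hd : 3 ≤ d)
    (hk : 2000 * (d : ℝ) * √(Real.log p) ≤ k) :
    (1 - 6 / (p : ℝ) ^ d) * (Nat.card (Unitri p d) : ℝ) ^ k ≤
      ({Z : Fin k → Unitri p d | min (1 / 300) (specGap Z) =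
        min (1 / 300) (specGap fun i => Abelianization.of (Z i))}.ncard : ℝ) := by
  have : NeZero p := ⟨hp.ne_zero⟩
  have hp0 : (0 : ℝ) < p := by exact_mod_cast hp.pos
  have h := gap_count hp hd hk
  rwa [Real.exp_neg, Real.exp_nat_mul, Real.exp_log hp0, ← div_eq_mul_inv] at h

end Pool.Agent.Results.MP_c1e253_pr.GapOfAbelianisation
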